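import Mathlib

/-!
# The moment lemma for random graphs (helper80, /team-store/H80_RG3.md, TS(a) and EXC)

`nat` is a finite set of points, `adj x c` says that the point `x` is adjacent to the letter `c`; `y ω` are sets of letters.
-/

namespace Pool.Agent.H80.RG

open Finset

variable {P Λ Ω : Type*} [DecidableEq Λ]

/-- The points adjacent to all letters of `S`. -/
def nb (nat : Finset P) (adj : P → Λ → Prop) [∀ x c, Decidable (adj x c)] (S : Finset Λ) : Finset P :=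
  nat.filter (fun x => ∀ c ∈ S, adj x c)

/-- The indices whose set is adjacent to `x`. -/
def hits (Om : Finset Ω) (y : Ω → Finset Λ) (adj : P → Λ → Prop) [∀ x c, Decidable (adj x c)] (x : P) : Finset Ω :=
  Om.filter (fun o => ∀ c ∈ y o, adj x c)

theorem mem_hits (Om : Finset Ω) (y : Ω → Finset Λ) (adj : P → Λ → Prop) [∀ x c, Decidable (adj x c)] (x : P) (o : Ω) :
    o ∈ hits Om y adj x ↔ o ∈ Om ∧ ∀ c ∈ y o, adj x c := by simp [hits]

theorem mem_nb (nat : Finset P) (adj : P → Λ → Prop) [∀ x c, Decidable (adj x c)] (S : Finset Λ) (x : P) :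
    x ∈ nb nat adj S ↔ x ∈ nat ∧ ∀ c ∈ S, adj x c := by simp [nb]

theorem sum_ext_pow (Om : Finset Ω) (y : Ω → Finset Λ) (π V : ℝ) (hπ : 0 ≤ π) (hV0 : 0 ≤ V) (smax g : ℕ)
    (hg : ∀ o ∈ Om, (y o).card ≤ g)
    (hV : ∀ S : Finset Λ, S.card ≤ smax → ∑ o ∈ Om, π ^ (y o \ S).card ≤ V)
    (nat : Finset P) (adj : P → Λ → Prop) [∀ x c, Decidable (adj x c)] (K : ℝ) (hK : 0 ≤ K) (A : Finset Λ → Prop)
    (hA : ∀ S, ∀ o ∈ Om, A S → A (S ∪ y o))
    (hc : ∀ S : Finset Λ, A S → S.card ≤ smax → ((nb nat adj S).card : ℝ) ≤ K * π ^ S.card) :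
    ∀ (k : ℕ) (S : Finset Λ), A S → S.card + k * g ≤ smax →
      ∑ x ∈ nb nat adj S, ((hits Om y adj x).card : ℝ) ^ k ≤ K * π ^ S.card * V ^ k := by
  intro k
  induction k with
  | zero =>
    intro S hS hs
    simp only [pow_zero, sum_const, nsmul_eq_mul, mul_one]
    exact hc S hS (by omega)
  | succ k ih =>
    intro S hS hs
    have h1 : ∑ x ∈ nb nat adj S, ((hits Om y adj x).card : ℝ) ^ (k + 1)
        = ∑ o ∈ Om, ∑ x ∈ nb nat adj (S ∪ y o), ((hits Om y adj x).card : ℝ) ^ k := by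
      have h2 : ∀ x ∈ nb nat adj S, ((hits Om y adj x).card : ℝ) ^ (k + 1)
          = ∑ o ∈ Om, if (∀ c ∈ y o, adj x c) then ((hits Om y adj x).card : ℝ) ^ k else 0 := by
        intro x _
        rw [← sum_filter, sum_const, nsmul_eq_mul, pow_succ, mul_comm]
        rfl
      rw [sum_congr rfl h2, sum_comm]
      refine sum_congr rfl fun o _ => ?_
      rw [← sum_filter]
      refine sum_congr ?_ fun _ _ => rfl
      ext x
      simp only [nb, mem_filter, mem_union]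
      constructor
      · rintro ⟨⟨h3, h4⟩, h5⟩
        exact ⟨h3, fun c hc' => hc'.elim (h4 c) (h5 c)⟩
      · rintro ⟨h3, h4⟩
        exact ⟨⟨h3, fun c hc' => h4 c (Or.inl hc')⟩, fun c hc' => h4 c (Or.inr hc')⟩
    rw [h1]
    have h3 : ∀ o ∈ Om, ∑ x ∈ nb nat adj (S ∪ y o), ((hits Om y adj x).card : ℝ) ^ k
        ≤ K * π ^ S.card * V ^ k * π ^ (y o \ S).card := by
      intro o ho
      have h4 : (S ∪ y o).card = S.card + (y o \ S).card := by
        rw [← card_union_of_disjoint (disjoint_sdiff), union_sdiff_self_eq_union]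
      have h5 : (y o \ S).card ≤ g := (card_le_card sdiff_subset).trans (hg o ho)
      have h6 := ih (S ∪ y o) (hA S o ho hS) (by rw [h4]; rw [add_mul] at hs; omega)
      rw [h4, pow_add] at h6
      calc _ ≤ _ := h6
        _ = _ := by ring
    refine (sum_le_sum h3).trans ?_
    rw [← mul_sum]
    have h7 := hV S (by omega)
    calc K * π ^ S.card * V ^ k * ∑ o ∈ Om, π ^ (y o \ S).card ≤ K * π ^ S.card * V ^ k * V :=
          mul_le_mul_of_nonneg_left h7 (by positivity)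
      _ = K * π ^ S.card * V ^ (k + 1) := by rw [pow_succ]; ring

/-- Chebyshev with the `k`-th moment. -/
theorem moment_tail (Om : Finset Ω) (y : Ω → Finset Λ) (π V : ℝ) (hπ : 0 ≤ π) (hV0 : 0 ≤ V) (smax g k : ℕ)
    (hg : ∀ o ∈ Om, (y o).card ≤ g)
    (hV : ∀ S : Finset Λ, S.card ≤ smax → ∑ o ∈ Om, π ^ (y o \ S).card ≤ V)
    (nat : Finset P) (adj : P → Λ → Prop) [∀ x c, Decidable (adj x c)] (K : ℝ) (hK : 0 ≤ K) (A : Finset Λ → Prop)
    (hA0 : A ∅) (hA : ∀ S, ∀ o ∈ Om, A S → A (S ∪ y o))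
    (hc : ∀ S : Finset Λ, A S → S.card ≤ smax → ((nb nat adj S).card : ℝ) ≤ K * π ^ S.card)
    (hk : k * g ≤ smax) (a : ℝ) (ha : 0 < a) :
    ((nat.filter (fun x => a * V < ((hits Om y adj x).card : ℝ))).card : ℝ) * a ^ k * V ^ k ≤ K * V ^ k := by
  have h1 := sum_ext_pow Om y π V hπ hV0 smax g hg hV nat adj K hK A hA hc k ∅ hA0 (by simpa using hk)
  have h2 : nb nat adj ∅ = nat := by simp [nb]
  rw [h2, card_empty, pow_zero, mul_one] at h1
  refine le_trans ?_ h1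
  calc ((nat.filter (fun x => a * V < ((hits Om y adj x).card : ℝ))).card : ℝ) * a ^ k * V ^ k
      = ∑ x ∈ nat.filter (fun x => a * V < ((hits Om y adj x).card : ℝ)), (a * V) ^ k := by
        rw [sum_const, nsmul_eq_mul, mul_pow]; ring
    _ ≤ ∑ x ∈ nat.filter (fun x => a * V < ((hits Om y adj x).card : ℝ)), ((hits Om y adj x).card : ℝ) ^ k := by
        refine sum_le_sum fun x hx => ?_
        exact pow_le_pow_left₀ (by positivity) (mem_filter.1 hx).2.le k
    _ ≤ ∑ x ∈ nat, ((hits Om y adj x).card : ℝ) ^ k :=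
        sum_le_sum_of_subset_of_nonneg (filter_subset _ _) fun _ _ _ => by positivity

/-- The bound for one step: sets of size `g` with rate `ρ` per letter. -/
theorem rate_sum (Om : Finset Ω) (y : Ω → Finset Λ) (π ρ N : ℝ) (hπ : 0 < π) (hρ : 0 ≤ ρ) (hN : 0 ≤ N) (g : ℕ)
    (hg : ∀ o ∈ Om, (y o).card = g) (S : Finset Λ)
    (hr : ∀ Q : Finset Λ, Q ⊆ S → ((Om.filter (fun o => Q ⊆ y o)).card : ℝ) ≤ N * ρ ^ Q.card) :
    ∑ o ∈ Om, π ^ (y o \ S).card ≤ N * π ^ g * (1 + ρ / π) ^ S.card := by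
  have h1 : ∀ o ∈ Om, π ^ (y o \ S).card ≤ ∑ Q ∈ S.powerset, if Q ⊆ y o then π ^ g * (π⁻¹) ^ Q.card else 0 := by
    intro o ho
    have h2 : π ^ (y o \ S).card = π ^ g * (π⁻¹) ^ (S ∩ y o).card := by
      have h3 : (S ∩ y o).card + (y o \ S).card = g := by
        rw [← hg o ho, inter_comm]; exact card_inter_add_card_sdiff (y o) S
      rw [← h3, pow_add, inv_pow]
      field_simp
    rw [h2]
    have h4 : S ∩ y o ∈ S.powerset := mem_powerset.2 inter_subset_left
    have h5 := single_le_sum (f := fun Q => if Q ⊆ y o then π ^ g * (π⁻¹) ^ Q.card else 0)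
      (fun Q _ => by split_ifs <;> positivity) h4
    simpa [inter_subset_right] using h5
  refine (sum_le_sum h1).trans ?_
  rw [sum_comm]
  have h6 : ∀ Q ∈ S.powerset, (∑ o ∈ Om, if Q ⊆ y o then π ^ g * (π⁻¹) ^ Q.card else 0)
      ≤ N * π ^ g * (ρ / π) ^ Q.card := by
    intro Q hQ
    rw [← sum_filter, sum_const, nsmul_eq_mul]
    have h7 := hr Q (mem_powerset.1 hQ)
    calc ((Om.filter (fun o => Q ⊆ y o)).card : ℝ) * (π ^ g * (π⁻¹) ^ Q.card)
        ≤ N * ρ ^ Q.card * (π ^ g * (π⁻¹) ^ Q.card) := mul_le_mul_of_nonneg_right h7 (by positivity)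
      _ = N * π ^ g * (ρ / π) ^ Q.card := by rw [div_eq_mul_inv, mul_pow]; ring
  refine (sum_le_sum h6).trans ?_
  rw [← mul_sum]
  have h8 : ∑ Q ∈ S.powerset, (ρ / π) ^ Q.card = (1 + ρ / π) ^ S.card := by
    have h9 := Finset.sum_pow_mul_eq_add_pow (ρ / π) 1 S
    simp only [one_pow, mul_one] at h9
    rw [h9, add_comm]
  rw [h8]

/-- `(1 + r) ^ s ≤ 2` if `2 s r ≤ 1`. -/
theorem one_add_pow_le_two (r : ℝ) (hr : 0 ≤ r) (s : ℕ) (h : 2 * s * r ≤ 1) : (1 + r) ^ s ≤ 2 := by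
  have h1 : ∀ t : ℕ, t ≤ s → (1 + r) ^ t * (1 - t * r) ≤ 1 := by
    intro t
    induction t with
    | zero => intro _; simp
    | succ t ih =>
      intro ht
      have h2 := ih (by omega)
      have h3 : (t : ℝ) ≤ s := by exact_mod_cast (by omega : t ≤ s)
      have h4 : (t + 1 : ℝ) ≤ s := by exact_mod_cast ht
      have h5 : (1 + r) * (1 - (t + 1) * r) ≤ 1 - t * r := by nlinarith [mul_nonneg hr hr, mul_nonneg (Nat.cast_nonneg (α := ℝ) t) (mul_nonneg hr hr)]
      calc (1 + r) ^ (t + 1) * (1 - ((t + 1 : ℕ) : ℝ) * r) = (1 + r) ^ t * ((1 + r) * (1 - (t + 1) * r)) := by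
            push_cast; ring
        _ ≤ (1 + r) ^ t * (1 - t * r) := mul_le_mul_of_nonneg_left h5 (by positivity)
        _ ≤ 1 := h2
  have h6 := h1 s le_rfl
  have h7 : (1 : ℝ) / 2 ≤ 1 - s * r := by linarith
  have h8 : 0 ≤ (1 + r) ^ s := by positivity
  nlinarith

end Pool.Agent.H80.RG
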