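import Pool.Agent.H80.RG.Mom

/-!
# Few minimal light sets, and the sums of Case 2 (helper80, /team-store/H80_RG3.md, 2(b), 2(c), 2(d)), in abstract form
-/

namespace Pool.Agent.H80.RG

open Finset

variable {Λ : Type*} [DecidableEq Λ]

/-- If no part of a family of `g`-sets is spread with rate `B⁻¹`, the family is small, above every set `Q`. -/
theorem few_of_noSpread (ML : Finset (Finset Λ)) (g : ℕ) (B : ℝ) (hB : 0 < B) (hg : ∀ y ∈ ML, y.card = g)
    (hno : ∀ β : Finset Λ, β.card < g → (ML.filter (fun y => β ⊆ y)).Nonempty →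
      (∀ γ : Finset Λ, Disjoint γ β →
        ((ML.filter (fun y => β ∪ γ ⊆ y)).card : ℝ) * B ^ γ.card ≤ (ML.filter (fun y => β ⊆ y)).card) → False)
    (Q : Finset Λ) : ((ML.filter (fun y => Q ⊆ y)).card : ℝ) * B ^ Q.card ≤ B ^ g := by
  classical
  by_contra hcon
  push Not at hcon
  set U : Finset Λ := ML.biUnion id with hU
  have hsub : ∀ β : Finset Λ, (ML.filter (fun y => β ⊆ y)).Nonempty → β ⊆ U := by
    rintro β ⟨y, hy⟩ c hc
    rw [mem_filter] at hy
    exact mem_biUnion.2 ⟨y, hy.1, hy.2 hc⟩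
  have hne : ∀ β : Finset Λ, 0 < ((ML.filter (fun y => β ⊆ y)).card : ℝ) * B ^ β.card →
      (ML.filter (fun y => β ⊆ y)).Nonempty := by
    intro β h
    by_contra h1
    rw [not_nonempty_iff_eq_empty] at h1
    rw [h1] at h
    simp at h
  have hQ : Q ∈ U.powerset.filter (fun β => Q ⊆ β) := by
    rw [mem_filter, mem_powerset]
    exact ⟨hsub Q (hne Q (lt_trans (by positivity) hcon)), Subset.rfl⟩
  obtain ⟨β, hβ, hmax⟩ := exists_max_image (U.powerset.filter (fun β => Q ⊆ β))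
    (fun β => ((ML.filter (fun y => β ⊆ y)).card : ℝ) * B ^ β.card) ⟨Q, hQ⟩
  have hβ1 := hmax Q hQ
  rw [mem_filter, mem_powerset] at hβ
  have hβ2 : B ^ g < ((ML.filter (fun y => β ⊆ y)).card : ℝ) * B ^ β.card := lt_of_lt_of_le hcon hβ1
  have hβne := hne β (lt_trans (by positivity) hβ2)
  have hlt : β.card < g := by
    by_contra h
    push Not at h
    obtain ⟨y, hy⟩ := hβne
    rw [mem_filter] at hy
    have h2 : β.card = g := le_antisymm ((card_le_card hy.2).trans (hg y hy.1).le) h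
    have h3 : ML.filter (fun y => β ⊆ y) ⊆ {β} := by
      intro y' hy'
      rw [mem_filter] at hy'
      rw [mem_singleton]
      exact (eq_of_subset_of_card_le hy'.2 (by rw [hg y' hy'.1, h2])).symm
    have h4 : ((ML.filter (fun y => β ⊆ y)).card : ℝ) ≤ 1 := by
      have := card_le_card h3
      rw [card_singleton] at this
      exact_mod_cast this
    rw [h2] at hβ2
    have h5 : 0 < B ^ g := by positivity
    nlinarith
  refine hno β hlt hβne fun γ hγ => ?_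
  by_cases h6 : (ML.filter (fun y => β ∪ γ ⊆ y)).Nonempty
  · have h7 : β ∪ γ ∈ U.powerset.filter (fun β => Q ⊆ β) := by
      rw [mem_filter, mem_powerset]
      exact ⟨hsub _ h6, hβ.2.trans subset_union_left⟩
    have h8 := hmax _ h7
    rw [card_union_of_disjoint hγ.symm, pow_add] at h8
    have h9 : 0 < B ^ β.card := by positivity
    have h10 : ((ML.filter (fun y => β ∪ γ ⊆ y)).card : ℝ) * B ^ γ.card * B ^ β.card
        ≤ (ML.filter (fun y => β ⊆ y)).card * B ^ β.card := by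
      calc _ = ((ML.filter (fun y => β ∪ γ ⊆ y)).card : ℝ) * (B ^ β.card * B ^ γ.card) := by ring
        _ ≤ _ := h8
    exact le_of_mul_le_mul_right h10 h9
  · rw [not_nonempty_iff_eq_empty] at h6
    rw [h6]
    simp

variable {P : Type*}

/-- The points that are adjacent to many sets of a family are few (EXC). -/
theorem exc_card (ML : Finset (Finset Λ)) (g k smax : ℕ) (B π β K a : ℝ) (hπ : 0 < π) (hB : 0 < B) (ha : 0 < a)
    (hBπ : B * π = β) (hβ : 0 < β) (hs : 2 * smax * β⁻¹ ≤ 1) (hg : ∀ y ∈ ML, y.card = g)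
    (hfew : ∀ Q : Finset Λ, ((ML.filter (fun y => Q ⊆ y)).card : ℝ) * B ^ Q.card ≤ B ^ g)
    (nat : Finset P) (adj : P → Λ → Prop) [∀ x c, Decidable (adj x c)] (hK : 0 ≤ K) (A : Finset Λ → Prop)
    (hA0 : A ∅) (hA : ∀ S, ∀ y ∈ ML, A S → A (S ∪ y))
    (hc : ∀ S : Finset Λ, A S → S.card ≤ smax → ((nb nat adj S).card : ℝ) ≤ K * π ^ S.card)
    (hk : k * g ≤ smax) :
    ((nat.filter (fun x => a * (2 * β ^ g) < ((hits ML id adj x).card : ℝ))).card : ℝ) * a ^ k ≤ K := by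
  have h1 : ∀ S : Finset Λ, S.card ≤ smax → ∑ y ∈ ML, π ^ (id y \ S).card ≤ 2 * β ^ g := by
    intro S hS
    have h2 := rate_sum ML (id : Finset Λ → Finset Λ) π B⁻¹ (B ^ g) hπ (by positivity) (by positivity) g
      (fun o ho => hg o ho) S (fun Q _ => by
        have h3 := hfew Q
        have h4 : 0 < B ^ Q.card := by positivity
        rw [inv_pow, ← div_eq_mul_inv, le_div_iff₀ h4]
        exact h3)
    refine h2.trans ?_
    have h5 : B⁻¹ / π = β⁻¹ := by rw [← hBπ, mul_inv, div_eq_mul_inv]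
    have h6 : B ^ g * π ^ g = β ^ g := by rw [← mul_pow, hBπ]
    rw [h5, h6, mul_comm 2]
    refine mul_le_mul_of_nonneg_left ?_ (by positivity)
    refine one_add_pow_le_two _ (by positivity) _ ?_
    have h7 : (S.card : ℝ) ≤ smax := by exact_mod_cast hS
    have h8 : 0 < β⁻¹ := by positivity
    nlinarith
  have h9 := moment_tail ML (id : Finset Λ → Finset Λ) π (2 * β ^ g) hπ.le (by positivity) smax g k
    (fun o ho => (hg o ho).le) h1 nat adj K hK A hA0 hA hc hk a ha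
  have h10 : 0 < (2 * β ^ g) ^ k := by positivity
  have h11 : ((nat.filter (fun x => a * (2 * β ^ g) < ((hits ML id adj x).card : ℝ))).card : ℝ) * a ^ k
      * (2 * β ^ g) ^ k ≤ K * (2 * β ^ g) ^ k := h9
  exact le_of_mul_le_mul_right h11 h10

/-- Double counting: outside EXC the total size of the neighbourhoods is small. -/
theorem sum_nb_le (ML : Finset (Finset Λ)) (C : Finset P) (adj : P → Λ → Prop) [∀ x c, Decidable (adj x c)] (b : ℝ)
    (hC : ∀ x ∈ C, ((hits ML id adj x).card : ℝ) ≤ b) :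
    ∑ y ∈ ML, ((nb C adj y).card : ℝ) ≤ b * C.card := by
  have h1 : ∑ y ∈ ML, ((nb C adj y).card : ℝ) = ∑ x ∈ C, ((hits ML id adj x).card : ℝ) := by
    have h2 : ∀ y ∈ ML, ((nb C adj y).card : ℝ) = ∑ x ∈ C, if (∀ c ∈ y, adj x c) then (1 : ℝ) else 0 := by
      intro y _
      rw [← sum_filter, sum_const, nsmul_eq_mul, mul_one]
      rfl
    rw [sum_congr rfl h2, sum_comm]
    refine sum_congr rfl fun x _ => ?_
    rw [← sum_filter, sum_const, nsmul_eq_mul, mul_one]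
    rfl
  rw [h1]
  calc ∑ x ∈ C, ((hits ML id adj x).card : ℝ) ≤ ∑ x ∈ C, b := sum_le_sum hC
    _ = b * C.card := by rw [sum_const, nsmul_eq_mul, mul_comm]

/-- Cauchy in Case 2(d): `bad y` are the numbers of bad points of the cells of the sets `y` of size `g`. -/
theorem cauchy_light {Γ : Type*} (ML : Finset Γ) (bad cnt : Γ → ℝ) (g : ℕ) (B π β σ Z MM c : ℝ) (hπ : 0 < π) (hB : 0 < B)
    (hBπ : B * π = β) (hσ : 0 < σ) (hσβ : σ ^ 2 = β) (hMM : 0 ≤ MM)
    (hML : (ML.card : ℝ) ≤ B ^ g) (hbad : ∀ y ∈ ML, bad y ^ 2 ≤ cnt y * (MM * (π / β ^ 4) ^ g))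
    (hcnt : ∑ y ∈ ML, cnt y ≤ (β ^ 2) ^ g * c) (hcZ : c * MM ≤ Z ^ 2) (hZ : 0 ≤ Z) (hc0 : 0 ≤ c) :
    ∑ y ∈ ML, bad y ≤ Z * (σ⁻¹) ^ g := by
  have hβ : 0 < β := by rw [← hBπ]; positivity
  have h1 : (∑ y ∈ ML, bad y) ^ 2 ≤ ML.card * ∑ y ∈ ML, bad y ^ 2 := sq_sum_le_card_mul_sum_sq
  have h2 : ∑ y ∈ ML, bad y ^ 2 ≤ (β ^ 2) ^ g * c * (MM * (π / β ^ 4) ^ g) := by
    refine (sum_le_sum hbad).trans ?_
    rw [← sum_mul]
    exact mul_le_mul_of_nonneg_right hcnt (by positivity)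
  have h3 : (∑ y ∈ ML, bad y) ^ 2 ≤ B ^ g * ((β ^ 2) ^ g * c * (MM * (π / β ^ 4) ^ g)) := by
    refine h1.trans ?_
    calc (ML.card : ℝ) * ∑ y ∈ ML, bad y ^ 2 ≤ ML.card * ((β ^ 2) ^ g * c * (MM * (π / β ^ 4) ^ g)) :=
          mul_le_mul_of_nonneg_left h2 (by positivity)
      _ ≤ _ := mul_le_mul_of_nonneg_right hML (by positivity)
  have h4 : B ^ g * ((β ^ 2) ^ g * c * (MM * (π / β ^ 4) ^ g)) = c * MM * (β⁻¹) ^ g := by
    have h5 : B * (β ^ 2 * (π / β ^ 4)) = β⁻¹ := by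
      rw [← hBπ] at hβ ⊢
      field_simp
    calc B ^ g * ((β ^ 2) ^ g * c * (MM * (π / β ^ 4) ^ g)) = c * MM * (B * (β ^ 2 * (π / β ^ 4))) ^ g := by
          rw [mul_pow, mul_pow]; ring
      _ = _ := by rw [h5]
  have h6 : (∑ y ∈ ML, bad y) ^ 2 ≤ (Z * (σ⁻¹) ^ g) ^ 2 := by
    rw [h4] at h3
    refine h3.trans ?_
    have h7 : (Z * (σ⁻¹) ^ g) ^ 2 = Z ^ 2 * (β⁻¹) ^ g := by
      rw [mul_pow, ← pow_mul, mul_comm g 2, pow_mul, inv_pow σ 2, hσβ]
    rw [h7]
    exact mul_le_mul_of_nonneg_right hcZ (by positivity)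
  exact le_of_sq_le_sq h6 (by positivity)

/-- The sum over the sizes `g = 1, ..., w`. -/
theorem geom_tail (σ : ℝ) (hσ : 101 ≤ σ) (w : ℕ) : ∑ g ∈ Finset.Icc 1 w, (σ⁻¹) ^ g ≤ 1 / 100 := by
  have h1 : ∀ w : ℕ, ∑ g ∈ Finset.Icc 1 w, (σ⁻¹) ^ g ≤ 1 / 100 - (σ⁻¹) ^ w / 100 := by
    intro w
    induction w with
    | zero => simp
    | succ w ih =>
      rw [Finset.sum_Icc_succ_top (by omega), pow_succ]
      have h2 : 0 ≤ (σ⁻¹) ^ w := by positivity
      have h3 : σ⁻¹ ≤ 1 / 101 := by rw [one_div]; exact inv_anti₀ (by norm_num) hσ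
      nlinarith
  have h4 : 0 ≤ (σ⁻¹) ^ w := by positivity
  linarith [h1 w]

end Pool.Agent.H80.RG
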